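import Pool.Agent.H547S1.Cls

/-!
# Public-key encryption and one-way functions over sets of Boolean functions

`OwfOver B`: there is a one-way function whose output bits have circuits of polynomial size with
gates from `B`. `PkeOver B`: there is a public-key encryption scheme for one bit such that, for
each public key, each bit of the ciphertext, as a function of the message bit and of the coins of
the encryption, has circuits of polynomial size with gates from `B`; the key generation and the
decryption are arbitrary polynomial-time algorithms. `OWF`, `PKE`: the same without the conditions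
on circuits. `B` is an arbitrary set of Boolean functions; the constants are not given for free.
-/

set_option autoImplicit false

namespace Pool.Agent.Results.MP_5f4f03_lc.GateSetTrichotomy

open Pool.Agent.H547R6 Pool.Agent.H547R7 Pool.Agent.H547S1

/-- **Trichotomy for one-way functions and public-key encryption over gate sets.** -/
theorem result (B : Set BFun) :
    ((B ⊆ Aff ∨ B ⊆ Conj ∨ B ⊆ Disj) → ¬ OwfOver B ∧ ¬ PkeOver B) ∧
    (B ⊆ Mon → ¬ B ⊆ Aff → ¬ B ⊆ Conj → ¬ B ⊆ Disj →
      (OwfOver B ↔ OWF) ∧ ¬ PkeOver B) ∧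
    (¬ B ⊆ Mon → ¬ B ⊆ Aff → (OwfOver B ↔ OWF) ∧ (PkeOver B ↔ PKE)) := by
  have hp := cls_pke B
  have ho := cls_owf B
  have conj_mon : B ⊆ Conj → B ⊆ Mon := by
    intro h f hf x y hxy hx
    have h1 := h hf x y
    have h2 : (fun i => x i && y i) = x := by
      funext i
      cases hxi : x i
      · simp
      · simp [hxy i hxi]
    rw [h2, hx] at h1
    simpa using h1.symm
  have disj_mon : B ⊆ Disj → B ⊆ Mon := by
    intro h f hf x y hxy hx
    have h1 := h hf x y
    have h2 : (fun i => x i || y i) = y := by
      funext i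
      cases hxi : x i
      · simp
      · simp [hxy i hxi]
    rw [h2, hx] at h1
    simpa using h1
  refine ⟨fun h => ⟨fun h1 => (ho.1 h1).1 h, fun h1 => (hp.1 h1).1 ?_⟩,
    fun hM hA hC hD => ⟨⟨fun h1 => (ho.1 h1).2, fun h1 => ho.2 ⟨by tauto, h1⟩⟩,
      fun h1 => (hp.1 h1).1 (Or.inl hM)⟩,
    fun hM hA => ⟨⟨fun h1 => (ho.1 h1).2, fun h1 => ho.2 ⟨?_, h1⟩⟩,
      ⟨fun h1 => (hp.1 h1).2, fun h1 => hp.2 ⟨by tauto, h1⟩⟩⟩⟩
  · rcases h with h | h | h
    · exact Or.inr h
    · exact Or.inl (conj_mon h)
    · exact Or.inl (disj_mon h)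
  · rintro (h | h | h)
    · exact hA h
    · exact hM (conj_mon h)
    · exact hM (disj_mon h)

end Pool.Agent.Results.MP_5f4f03_lc.GateSetTrichotomy
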